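import Pool.Agent.H83.SplitHom

set_option autoImplicit false

namespace Pool.Agent.Results.MP_19f369_gt.NotRightBounded

/-- covering dimension zero -/
def CoveringDimZero (X : Type) [TopologicalSpace X] : Prop :=
  Nonempty X ∧ ∀ (n : ℕ) (U : Fin n → Set X), (∀ i, IsOpen (U i)) → ⋃ i, U i = Set.univ →
    ∃ (m : ℕ) (W : Fin m → Set X), (∀ j, IsOpen (W j)) ∧ ⋃ j, W j = Set.univ ∧
      (∀ j k, j ≠ k → Disjoint (W j) (W k)) ∧ ∀ j, ∃ i, W j ⊆ U i

/-- continuous self-maps with the topology of pointwise convergence -/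
abbrev SelfMaps (X : Type) [TopologicalSpace X] : Type := {f : X → X // Continuous f}

theorem result : ∃ (X : Type) (_ : TopologicalSpace X), CompactSpace X ∧ T2Space X ∧
    CoveringDimZero X ∧ (∀ x y : X, ∃ h : X ≃ₜ X, h x = y) ∧
    ∃ U ∈ nhds (⟨id, continuous_id⟩ : SelfMaps X), ∀ F : Set (SelfMaps X), F.Finite →
      ∃ g : SelfMaps X, ∀ u ∈ U, ∀ f ∈ F, g.1 ≠ u.1 ∘ f.1 := by
  obtain ⟨B, h1, hB⟩ := Pool.Agent.H83.SplitGroup.exists_group
  obtain ⟨U, hU, h⟩ := Pool.Agent.H83.SplitHom.not_right (B := B) hB (o := ⟨1, h1⟩) rfl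
  refine ⟨Pool.Agent.H83.SplitSpace.I 0 (⟨1, h1⟩ : B), inferInstance, inferInstance,
    inferInstance, ⟨⟨⟨Pool.Agent.H83.SplitSpace.up 0,
      Pool.Agent.H83.SplitSpace.up_mem (by simp) (by simp)⟩⟩, fun n U hU hc => ?_⟩,
    Pool.Agent.H83.SplitHom.homogeneous hB, Subtype.val ⁻¹' U,
    continuous_subtype_val.continuousAt.preimage_mem_nhds hU, fun F hF => ?_⟩
  · obtain ⟨m, W, h2, h3, h4⟩ := TopologicalSpace.IsOpenCover.exists_finite_nonempty_disjoint_clopen_cover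
      (U := fun i => ⟨U i, hU i⟩) (TopologicalSpace.IsOpenCover.of_sets hU hc)
    refine ⟨m, fun j => W j, fun j => (W j).isClopen.isOpen, Set.univ_subset_iff.1 h3,
      fun j k hjk => ?_, fun j => (h2 j).2⟩
    exact TopologicalSpace.Clopens.coe_disjoint.2 (h4 hjk)
  · obtain ⟨f, hf, hf'⟩ := h _ (hF.image Subtype.val) (by rintro _ ⟨g, -, rfl⟩; exact g.2)
    exact ⟨⟨f, hf⟩, fun u hu g hg => hf' _ (Set.mem_image_of_mem _ hg) _ hu⟩

end Pool.Agent.Results.MP_19f369_gt.NotRightBounded
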